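import Mathlib.Topology.Instances.CantorSet
import Mathlib.Topology.MetricSpace.HausdorffDimension
import Mathlib.NumberTheory.Real.GoldenRatio
import Mathlib.Analysis.SpecialFunctions.Pow.Real
import Mathlib.Tactic

/-!
# Upper bound for the dimension of `circle ∩ (C × C)`

`dimH {p | p.1 ^ 2 + p.2 ^ 2 = 1, p.1 ∈ C, p.2 ∈ C} ≤ log φ / log 3`.

In a rectangle `[a, a + s] × [b, b + σ]` the circle is the graph of `g x = √(1 - x²)`; its position
is `q = (g a - b) / σ`.  The children of a rectangle have positions `3 q - j - i τ`, where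
`i, j ∈ {0, 2}` and `τ` is a mean slope.  For `τ` in a window `[(P-1)/(2R), P/(2R)]` the cells
`c = ⌊R q⌋` carry two integer weights `A c`, `B c` with `Σ A ≤ B`, `Σ B ≤ A + B` over the children,
and this gives at most `(A c + φ B c) φ ^ n` rectangles after `n` steps.
-/

namespace Pool.Agent.Lib.H60U

open Set MeasureTheory Real Topology

/-! ### The Cantor set -/

lemma cantor_cases {x : ℝ} (hx : x ∈ cantorSet) :
    ∃ y ∈ cantorSet, x = y / 3 ∨ x = (2 + y) / 3 := by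
  rw [cantorSet_eq_union_halves] at hx
  rcases hx with ⟨y, hy, rfl⟩ | ⟨y, hy, rfl⟩
  · exact ⟨y, hy, Or.inl rfl⟩
  · exact ⟨y, hy, Or.inr rfl⟩

lemma cantor_nonneg {x : ℝ} (hx : x ∈ cantorSet) : 0 ≤ x := (cantorSet_subset_unitInterval hx).1

lemma cantor_le_one {x : ℝ} (hx : x ∈ cantorSet) : x ≤ 1 := (cantorSet_subset_unitInterval hx).2

lemma three_mul_mem {x : ℝ} (hx : x ∈ cantorSet) (h : 3 * x ≤ 1) : 3 * x ∈ cantorSet := by
  obtain ⟨y, hy, rfl | rfl⟩ := cantor_cases hx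
  · have e : 3 * (y / 3) = y := by ring
    rwa [e]
  · have := cantor_nonneg hy
    linarith

lemma pow_mul_mem {x : ℝ} (hx : x ∈ cantorSet) :
    ∀ n : ℕ, 3 ^ n * x ≤ 1 → 3 ^ n * x ∈ cantorSet
  | 0 => fun _ => by simpa using hx
  | n + 1 => fun h => by
    have h0 := cantor_nonneg hx
    have h1 : 3 * (3 ^ n * x) ≤ 1 := by rw [pow_succ] at h; linarith
    have h2 : 0 ≤ 3 ^ n * x := by positivity
    have h3 := three_mul_mem (pow_mul_mem hx n (by linarith)) h1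
    have e : (3 : ℝ) ^ (n + 1) * x = 3 * (3 ^ n * x) := by ring
    rwa [e]

lemma gap {x : ℝ} (hx : x ∈ cantorSet) (h : x < 2 / 3) : x ≤ 1 / 3 := by
  obtain ⟨y, hy, rfl | rfl⟩ := cantor_cases hx
  · have := cantor_le_one hy
    linarith
  · have := cantor_nonneg hy
    linarith

lemma gap' {x : ℝ} (hx : x ∈ cantorSet) (h : x < 8 / 9) : x ≤ 7 / 9 := by
  obtain ⟨y, hy, rfl | rfl⟩ := cantor_cases hx
  · have := cantor_le_one hy
    linarith
  · have := gap hy (by linarith)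
    linarith

lemma gap'' {x : ℝ} (hx : x ∈ cantorSet) (h : x < 8 / 27) : x ≤ 7 / 27 := by
  obtain ⟨y, hy, rfl | rfl⟩ := cantor_cases hx
  · have := gap' hy (by linarith)
    linarith
  · have := cantor_nonneg hy
    linarith

lemma exists_level {x : ℝ} (hx : x ∈ cantorSet) (h0 : 0 < x) :
    ∃ n : ℕ, 2 / 3 ≤ 3 ^ n * x ∧ 3 ^ n * x ≤ 1 := by
  classical
  have hex : ∃ n : ℕ, 1 < 3 ^ (n + 1) * x := by
    obtain ⟨n, hn⟩ := pow_unbounded_of_one_lt (1 / x) (by norm_num : (1 : ℝ) < 3)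
    refine ⟨n, ?_⟩
    have h1 : 1 < 3 ^ n * x := by
      rw [div_lt_iff₀ h0] at hn
      exact hn
    have h2 : (3 : ℝ) ^ (n + 1) * x = 3 * (3 ^ n * x) := by ring
    rw [h2]; linarith
  have hle : 3 ^ (Nat.find hex) * x ≤ 1 := by
    rcases Nat.eq_zero_or_pos (Nat.find hex) with h | h
    · rw [h]; simpa using cantor_le_one hx
    · have := Nat.find_min hex (m := Nat.find hex - 1) (by omega)
      rw [Nat.sub_add_cancel h] at this
      exact not_lt.mp this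
  refine ⟨Nat.find hex, ?_, hle⟩
  by_contra hlt
  push Not at hlt
  have h1 := gap (pow_mul_mem hx _ hle) hlt
  have h2 := Nat.find_spec hex
  have h3 : (3 : ℝ) ^ (Nat.find hex + 1) * x = 3 * (3 ^ (Nat.find hex) * x) := by ring
  rw [h3] at h2
  linarith

lemma exists_cell {x : ℝ} (hx : x ∈ cantorSet) :
    ∀ k : ℕ, ∃ N : ℕ, ∃ u ∈ cantorSet, x = (N : ℝ) / 3 ^ k + 1 / 3 ^ k * u := by
  intro k
  induction k generalizing x with
  | zero => exact ⟨0, x, hx, by simp⟩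
  | succ k ih =>
    obtain ⟨y, hy, h⟩ := cantor_cases hx
    obtain ⟨N, u, hu, e⟩ := ih hy
    rcases h with h | h
    · refine ⟨N, u, hu, ?_⟩
      rw [h, e]; field_simp; ring
    · refine ⟨2 * 3 ^ k + N, u, hu, ?_⟩
      rw [h, e]; push_cast; field_simp; ring

/-! ### The circle as a graph -/

/-- The upper half of the circle is the graph of `g`. -/
noncomputable def g (x : ℝ) : ℝ := √(1 - x ^ 2)

lemma eq_g {x y : ℝ} (h : x ^ 2 + y ^ 2 = 1) (hy : 0 ≤ y) : y = g x := by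
  have e : 1 - x ^ 2 = y ^ 2 := by linarith
  rw [g, e, Real.sqrt_sq hy]

/-- All slopes of the circle over `I` (measured in the scale `κ`) are in `[lo, hi]`. -/
def SlopeOn (κ lo hi : ℝ) (I : Set ℝ) : Prop :=
  ∀ x ∈ I, ∀ x' ∈ I, x ≤ x' →
    κ * lo * (x' - x) ≤ g x - g x' ∧ g x - g x' ≤ κ * hi * (x' - x)

lemma SlopeOn.mono {κ lo hi : ℝ} {I J : Set ℝ} (h : SlopeOn κ lo hi I) (hJ : J ⊆ I) :
    SlopeOn κ lo hi J :=
  fun x hx x' hx' hxx => h x (hJ hx) x' (hJ hx') hxx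

/-- The points of the circle with `y > 0` in `(a + s C) × (b + σ C)`. -/
def D (a b s σ : ℝ) : Set (ℝ × ℝ) :=
  {p | p.1 ^ 2 + p.2 ^ 2 = 1 ∧ 0 < p.2 ∧
    ∃ u ∈ cantorSet, ∃ v ∈ cantorSet, p.1 = a + s * u ∧ p.2 = b + σ * v}

lemma D_subset (a b s σ : ℝ) :
    D a b s σ ⊆ D a b (s / 3) (σ / 3) ∪ D a (b + 2 * (σ / 3)) (s / 3) (σ / 3) ∪
      (D (a + 2 * (s / 3)) b (s / 3) (σ / 3) ∪
        D (a + 2 * (s / 3)) (b + 2 * (σ / 3)) (s / 3) (σ / 3)) := by
  rintro p ⟨hc, hy, u, hu, v, hv, e1, e2⟩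
  obtain ⟨u', hu', h1⟩ := cantor_cases hu
  obtain ⟨v', hv', h2⟩ := cantor_cases hv
  rcases h1 with h1 | h1 <;> rcases h2 with h2 | h2
  · exact Or.inl (Or.inl ⟨hc, hy, u', hu', v', hv', by rw [e1, h1]; ring, by rw [e2, h2]; ring⟩)
  · exact Or.inl (Or.inr ⟨hc, hy, u', hu', v', hv', by rw [e1, h1]; ring, by rw [e2, h2]; ring⟩)
  · exact Or.inr (Or.inl ⟨hc, hy, u', hu', v', hv', by rw [e1, h1]; ring, by rw [e2, h2]; ring⟩)
  · exact Or.inr (Or.inr ⟨hc, hy, u', hu', v', hv', by rw [e1, h1]; ring, by rw [e2, h2]; ring⟩)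

lemma diam_D {a b s σ : ℝ} (hs : 0 < s) (hσ : 0 < σ) (hσs : σ ≤ s) :
    Metric.ediam (D a b s σ) ≤ ENNReal.ofReal s := by
  refine Metric.ediam_le ?_
  rintro p ⟨-, -, u, hu, v, hv, e1, e2⟩ p' ⟨-, -, u', hu', v', hv', e1', e2'⟩
  rw [edist_dist]
  refine ENNReal.ofReal_le_ofReal ?_
  rw [Prod.dist_eq]
  have hu0 := cantor_nonneg hu
  have hu1 := cantor_le_one hu
  have hv0 := cantor_nonneg hv
  have hv1 := cantor_le_one hv
  have hu0' := cantor_nonneg hu'
  have hu1' := cantor_le_one hu'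
  have hv0' := cantor_nonneg hv'
  have hv1' := cantor_le_one hv'
  have key : ∀ x y c t : ℝ, 0 ≤ x → x ≤ 1 → 0 ≤ y → y ≤ 1 → 0 < t → t ≤ s →
      |(c + t * x) - (c + t * y)| ≤ s := by
    intro x y c t hx0 hx1 hy0 hy1 ht hts
    have e : (c + t * x) - (c + t * y) = t * (x - y) := by ring
    rw [e, abs_mul, abs_of_pos ht]
    have h1 : |x - y| ≤ 1 := abs_le.mpr ⟨by linarith, by linarith⟩
    calc t * |x - y| ≤ t * 1 := mul_le_mul_of_nonneg_left h1 ht.le
      _ ≤ s := by linarith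
  refine max_le ?_ ?_
  · rw [Real.dist_eq, e1, e1']
    exact key _ _ _ _ hu0 hu1 hu0' hu1' hs le_rfl
  · rw [Real.dist_eq, e2, e2']
    exact key _ _ _ _ hv0 hv1 hv0' hv1' hσ hσs

/-- The position of the circle in the rectangle. -/
noncomputable def pos (a b σ : ℝ) : ℝ := (g a - b) / σ

lemma pos_range {a b s σ lo hi : ℝ} (hs : 0 < s) (hσ : 0 < σ) (hlo : 0 ≤ lo)
    (hsl : SlopeOn (σ / s) lo hi (Icc a (a + s))) (hne : (D a b s σ).Nonempty) :
    0 ≤ pos a b σ ∧ pos a b σ ≤ 1 + hi := by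
  obtain ⟨p, hc, hy, u, hu, v, hv, e1, e2⟩ := hne
  have hu0 := cantor_nonneg hu
  have hu1 := cantor_le_one hu
  have hv0 := cantor_nonneg hv
  have hv1 := cantor_le_one hv
  have hg : p.2 = g p.1 := eq_g hc hy.le
  rw [e1, e2] at hg
  have hsu : 0 ≤ s * u := mul_nonneg hs.le hu0
  have hsu1 : s * u ≤ s := by nlinarith
  obtain ⟨h1, h2⟩ := hsl a ⟨le_rfl, by linarith⟩ (a + s * u) ⟨by linarith, by linarith⟩
    (by linarith)
  have e3 : σ / s * lo * (a + s * u - a) = σ * (lo * u) := by field_simp; ring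
  have e4 : σ / s * hi * (a + s * u - a) = σ * (hi * u) := by field_simp; ring
  rw [e3] at h1
  rw [e4] at h2
  have hhi : 0 ≤ σ * (hi * u) := by
    have : 0 ≤ σ * (lo * u) := by positivity
    linarith
  have hhi0 : σ * (hi * u) ≤ σ * max hi 0 := by
    refine mul_le_mul_of_nonneg_left ?_ hσ.le
    rcases le_total 0 hi with h | h
    · rw [max_eq_left h]; nlinarith
    · rw [max_eq_right h]; nlinarith
  have hhi' : 0 ≤ hi := by
    obtain ⟨h1', h2'⟩ := hsl a ⟨le_rfl, by linarith⟩ (a + s) ⟨by linarith, by linarith⟩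
      (by linarith)
    have e5 : σ / s * lo * (a + s - a) = σ * lo := by field_simp; ring
    have e6 : σ / s * hi * (a + s - a) = σ * hi := by field_simp; ring
    rw [e5] at h1'
    rw [e6] at h2'
    have : 0 ≤ σ * lo := by positivity
    have : 0 ≤ σ * hi := by linarith
    exact nonneg_of_mul_nonneg_right this hσ
  rw [max_eq_left hhi'] at hhi0
  unfold pos
  constructor
  · refine div_nonneg ?_ hσ.le
    have : 0 ≤ σ * v := mul_nonneg hσ.le hv0
    have : 0 ≤ σ * (lo * u) := by positivity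
    linarith
  · rw [div_le_iff₀ hσ]
    have : σ * v ≤ σ := by nlinarith
    nlinarith

/-! ### The tables -/

/-- Value of a table at an integer cell. -/
def val (T : List ℕ) (z : ℤ) : ℕ := if z < 0 then 0 else T.getD z.toNat 0

/-- The sum of the values of a table over the four children. -/
def childSum (R P : ℤ) (T : List ℕ) (c j e : ℤ) : ℕ :=
  val T (3 * c + j) + val T (3 * c + j - 2 * R) +
    (val T (3 * c + j - P + e) + val T (3 * c + j - P + e - 2 * R))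

/-- The check of a pair of tables. -/
def OK (R P : ℕ) (A B : List ℕ) : Prop :=
  (0 < R ∧ 0 < P) ∧ ∀ c : ℕ, c < R + P / 2 + 1 → 1 ≤ val A c ∧ ∀ j : ℕ, j < 3 → ∀ e : ℕ, e < 2 →
    childSum R P A c j e ≤ val B c ∧ childSum R P B c j e ≤ val A c + val B c

instance (R P : ℕ) (A B : List ℕ) : Decidable (OK R P A B) := by
  unfold OK; infer_instance

theorem ok1 : OK 9 13 [1, 1, 1, 1, 1, 1, 2, 2, 2, 1, 1, 1, 1, 1, 1, 1]
    [1, 1, 2, 1, 2, 2, 3, 3, 3, 2, 2, 2, 2, 2, 1, 1] := by decide +kernel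

theorem ok2 : OK 9 14 [1, 1, 1, 1, 1, 1, 2, 2, 2, 2, 1, 1, 1, 1, 1, 1, 1]
    [1, 1, 2, 2, 2, 2, 3, 3, 3, 3, 2, 2, 2, 2, 1, 1, 1] := by decide +kernel

theorem ok3 : OK 8 13 [1, 1, 1, 1, 1, 1, 2, 2, 2, 1, 1, 1, 1, 1, 1]
    [1, 1, 2, 1, 2, 2, 3, 3, 3, 2, 2, 2, 2, 1, 1] := by decide +kernel

theorem ok4 : OK 18 33
    [1, 2, 2, 1, 2, 3, 3, 2, 1, 2, 2, 2, 3, 3, 3, 3, 5, 5, 5, 3, 3, 3, 2, 2, 2, 2, 2, 2, 3, 3, 2,
      1, 2, 1, 1]
    [2, 3, 3, 2, 3, 5, 5, 3, 2, 3, 3, 3, 5, 5, 5, 5, 8, 8, 8, 5, 5, 5, 3, 3, 3, 3, 3, 3, 5, 5, 3,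
      2, 3, 2, 1] := by decide +kernel

/-- The weight of a cell. -/
noncomputable def W (A B : List ℕ) (c : ℤ) : ℝ := val A c + Real.goldenRatio * val B c

lemma W_nonneg (A B : List ℕ) (c : ℤ) : 0 ≤ W A B c := by
  have := Real.goldenRatio_pos
  unfold W
  positivity

lemma floor_three {ρ : ℝ} {c : ℤ} (hc : ⌊ρ⌋ = c) : ∃ j : ℕ, j < 3 ∧ ⌊3 * ρ⌋ = 3 * c + j := by
  have h1 : (c : ℝ) ≤ ρ := hc ▸ Int.floor_le ρ
  have h2 : ρ < c + 1 := hc ▸ Int.lt_floor_add_one ρ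
  have h3 : 3 * c ≤ ⌊3 * ρ⌋ := by rw [Int.le_floor]; push_cast; linarith
  have h4 : ⌊3 * ρ⌋ < 3 * c + 3 := by rw [Int.floor_lt]; push_cast; linarith
  refine ⟨(⌊3 * ρ⌋ - 3 * c).toNat, by omega, by omega⟩

lemma floor_sub {x t : ℝ} {P : ℤ} (h1 : (P : ℝ) - 1 ≤ t) (h2 : t ≤ P) :
    ∃ e : ℕ, e < 2 ∧ ⌊x - t⌋ = ⌊x⌋ - P + e := by
  have a1 := Int.floor_le x
  have a2 := Int.lt_floor_add_one x
  have h3 : ⌊x⌋ - P ≤ ⌊x - t⌋ := by rw [Int.le_floor]; push_cast; linarith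
  have h4 : ⌊x - t⌋ < ⌊x⌋ - P + 2 := by rw [Int.floor_lt]; push_cast; linarith
  refine ⟨(⌊x - t⌋ - (⌊x⌋ - P)).toNat, by omega, by omega⟩

/-- One step of the recursion on the cells. -/
lemma step {R P : ℕ} {A B : List ℕ} (hok : OK R P A B) {q τ : ℝ} (hq0 : 0 ≤ q)
    (hq1 : q ≤ 1 + P / (2 * R)) (h1 : ((P : ℝ) - 1) / R ≤ τ) (h2 : τ ≤ P / R) :
    W A B ⌊R * (3 * q)⌋ + W A B ⌊R * (3 * q - 2)⌋ +
      (W A B ⌊R * (3 * q - τ)⌋ + W A B ⌊R * (3 * q - 2 - τ)⌋) ≤
      Real.goldenRatio * W A B ⌊R * q⌋ := by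
  obtain ⟨⟨hR, hP⟩, hc⟩ := hok
  have hR' : (0 : ℝ) < R := by exact_mod_cast hR
  have hc0 : 0 ≤ ⌊R * q⌋ := Int.floor_nonneg.mpr (by positivity)
  have hc1 : ⌊R * q⌋ < ((R + P / 2 + 1 : ℕ) : ℤ) := by
    rw [Int.floor_lt]
    have e1 : (R : ℝ) * q ≤ R + P / 2 := by
      have := mul_le_mul_of_nonneg_left hq1 hR'.le
      have e : (R : ℝ) * (1 + P / (2 * R)) = R + P / 2 := by field_simp
      linarith
    have e2 : (P : ℝ) / 2 < ((P / 2 + 1 : ℕ) : ℝ) := by
      have h3 : P < 2 * (P / 2 + 1) := by omega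
      have h4 : (P : ℝ) < 2 * ((P / 2 + 1 : ℕ) : ℝ) := by exact_mod_cast h3
      linarith
    have e3 : ((R + P / 2 + 1 : ℕ) : ℝ) = R + ((P / 2 + 1 : ℕ) : ℝ) := by
      rw [add_assoc]; exact Nat.cast_add _ _
    rw [Int.cast_natCast, e3]
    linarith
  obtain ⟨c, hcn⟩ := Int.eq_ofNat_of_zero_le hc0
  obtain ⟨j, hj, hj'⟩ := floor_three hcn
  have hcl : c < R + P / 2 + 1 := by
    rw [hcn] at hc1; exact_mod_cast hc1
  have t1 : ((P : ℤ) : ℝ) - 1 ≤ R * τ := by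
    rw [div_le_iff₀ hR'] at h1
    push_cast
    linarith
  have t2 : R * τ ≤ ((P : ℤ) : ℝ) := by
    rw [le_div_iff₀ hR'] at h2
    push_cast
    linarith
  obtain ⟨e, he, he'⟩ := floor_sub (x := 3 * (R * q)) t1 t2
  obtain ⟨-, hs⟩ := hc c hcl
  obtain ⟨s1, s2⟩ := hs j hj e he
  have f1 : ⌊R * (3 * q)⌋ = 3 * (c : ℤ) + j := by
    rw [← hj']; congr 1; ring
  have f2 : ⌊R * (3 * q - 2)⌋ = 3 * (c : ℤ) + j - 2 * R := by
    have : R * (3 * q - 2) = 3 * (R * q) - ((2 * R : ℤ) : ℝ) := by push_cast; ring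
    rw [this, Int.floor_sub_intCast, hj']
  have f3 : ⌊R * (3 * q - τ)⌋ = 3 * (c : ℤ) + j - P + e := by
    have : R * (3 * q - τ) = 3 * (R * q) - R * τ := by ring
    rw [this, he', hj']
  have f4 : ⌊R * (3 * q - 2 - τ)⌋ = 3 * (c : ℤ) + j - P + e - 2 * R := by
    have : R * (3 * q - 2 - τ) = (3 * (R * q) - R * τ) - ((2 * R : ℤ) : ℝ) := by push_cast; ring
    rw [this, Int.floor_sub_intCast, he', hj']
  rw [f1, f2, f3, f4, hcn]
  have g1 : ((childSum R P A c j e : ℕ) : ℝ) ≤ (val B c : ℝ) := by exact_mod_cast s1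
  have g2 : ((childSum R P B c j e : ℕ) : ℝ) ≤ (val A c : ℝ) + val B c := by exact_mod_cast s2
  unfold childSum at g1 g2
  push_cast at g1 g2
  have hφ := Real.goldenRatio_pos
  have hφ2 := Real.goldenRatio_sq
  unfold W
  have g3 := mul_le_mul_of_nonneg_left g2 hφ.le
  have e0 : Real.goldenRatio * ((val A c : ℝ) + Real.goldenRatio * val B c) =
      val B c + Real.goldenRatio * (val A c + val B c) := by
    have : Real.goldenRatio * (Real.goldenRatio * (val B c : ℝ)) =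
      Real.goldenRatio ^ 2 * val B c := by ring
    rw [mul_add, this, hφ2]; ring
  rw [e0]
  linarith

/-! ### Covers -/

lemma val_pos_of_range {R P : ℕ} {A B : List ℕ} (hok : OK R P A B) {q : ℝ} (hq0 : 0 ≤ q)
    (hq1 : q ≤ 1 + P / (2 * R)) : 1 ≤ W A B ⌊R * q⌋ := by
  obtain ⟨⟨hR, hP⟩, hc⟩ := hok
  have hR' : (0 : ℝ) < R := by exact_mod_cast hR
  have hc0 : 0 ≤ ⌊R * q⌋ := Int.floor_nonneg.mpr (by positivity)
  have hc1 : ⌊R * q⌋ < ((R + P / 2 + 1 : ℕ) : ℤ) := by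
    rw [Int.floor_lt]
    have e1 : (R : ℝ) * q ≤ R + P / 2 := by
      have := mul_le_mul_of_nonneg_left hq1 hR'.le
      have e : (R : ℝ) * (1 + P / (2 * R)) = R + P / 2 := by field_simp
      linarith
    have e2 : (P : ℝ) / 2 < ((P / 2 + 1 : ℕ) : ℝ) := by
      have h3 : P < 2 * (P / 2 + 1) := by omega
      have h4 : (P : ℝ) < 2 * ((P / 2 + 1 : ℕ) : ℝ) := by exact_mod_cast h3
      linarith
    have e3 : ((R + P / 2 + 1 : ℕ) : ℝ) = R + ((P / 2 + 1 : ℕ) : ℝ) := by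
      rw [add_assoc]; exact Nat.cast_add _ _
    rw [Int.cast_natCast, e3]
    linarith
  obtain ⟨c, hcn⟩ := Int.eq_ofNat_of_zero_le hc0
  have hcl : c < R + P / 2 + 1 := by
    rw [hcn] at hc1; exact_mod_cast hc1
  have h1 := (hc c hcl).1
  rw [hcn]
  have h2 : (1 : ℝ) ≤ val A c := by exact_mod_cast h1
  have := Real.goldenRatio_pos
  unfold W
  have : 0 ≤ Real.goldenRatio * (val B c : ℝ) := by positivity
  linarith

/-- A cover of `S` by a list of sets. -/
def Cov (S : Set (ℝ × ℝ)) (r : ℝ) (N : ℝ) : Prop :=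
  ∃ l : List (Set (ℝ × ℝ)), (l.length : ℝ) ≤ N ∧
    (∀ U ∈ l, Metric.ediam U ≤ ENNReal.ofReal r) ∧ S ⊆ ⋃ U ∈ l, U

lemma Cov.empty (r : ℝ) {N : ℝ} (hN : 0 ≤ N) : Cov ∅ r N :=
  ⟨[], by simpa using hN, by simp, by simp⟩

lemma Cov.union {S T : Set (ℝ × ℝ)} {r M N : ℝ} (hS : Cov S r M) (hT : Cov T r N) :
    Cov (S ∪ T) r (M + N) := by
  obtain ⟨l, h1, h2, h3⟩ := hS
  obtain ⟨l', h1', h2', h3'⟩ := hT
  refine ⟨l ++ l', ?_, ?_, ?_⟩
  · rw [List.length_append]; push_cast; linarith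
  · intro U hU
    rcases List.mem_append.mp hU with h | h
    · exact h2 U h
    · exact h2' U h
  · rintro p (hp | hp)
    · obtain ⟨U, hU, hpU⟩ := mem_iUnion₂.mp (h3 hp)
      exact mem_iUnion₂.mpr ⟨U, List.mem_append_left _ hU, hpU⟩
    · obtain ⟨U, hU, hpU⟩ := mem_iUnion₂.mp (h3' hp)
      exact mem_iUnion₂.mpr ⟨U, List.mem_append_right _ hU, hpU⟩

lemma Cov.mono {S T : Set (ℝ × ℝ)} {r M N : ℝ} (hS : Cov S r M) (hT : T ⊆ S) (hMN : M ≤ N) :
    Cov T r N := by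
  obtain ⟨l, h1, h2, h3⟩ := hS
  exact ⟨l, h1.trans hMN, h2, hT.trans h3⟩

theorem cover {R P : ℕ} {A B : List ℕ} (hok : OK R P A B) (n : ℕ) : ∀ {a b s σ : ℝ},
    0 < s → 0 < σ → σ ≤ s →
    SlopeOn (σ / s) (((P : ℝ) - 1) / (2 * R)) (P / (2 * R)) (Icc a (a + s)) →
    Cov (D a b s σ) (s / 3 ^ n) (W A B ⌊R * pos a b σ⌋ * Real.goldenRatio ^ n) := by
  have hR : (0 : ℝ) < R := by exact_mod_cast hok.1.1
  have hP : (1 : ℝ) ≤ P := by exact_mod_cast hok.1.2
  have hlo : 0 ≤ ((P : ℝ) - 1) / (2 * R) := div_nonneg (by linarith) (by positivity)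
  have hφ := Real.goldenRatio_pos
  induction n with
  | zero =>
    intro a b s σ hs hσ hσs hsl
    rcases (D a b s σ).eq_empty_or_nonempty with he | hne
    · rw [he]
      exact Cov.empty _ (mul_nonneg (W_nonneg _ _ _) (by positivity))
    · obtain ⟨q0, q1⟩ := pos_range hs hσ hlo hsl hne
      refine ⟨[D a b s σ], ?_, ?_, ?_⟩
      · have := val_pos_of_range hok q0 q1
        simpa using this
      · intro U hU
        rw [List.mem_singleton] at hU
        rw [hU, pow_zero, div_one]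
        exact diam_D hs hσ hσs
      · intro p hp
        simpa using hp
  | succ n ih =>
    intro a b s σ hs hσ hσs hsl
    rcases (D a b s σ).eq_empty_or_nonempty with he | hne
    · rw [he]
      exact Cov.empty _ (mul_nonneg (W_nonneg _ _ _) (by positivity))
    · obtain ⟨q0, q1⟩ := pos_range hs hσ hlo hsl hne
      have hs3 : 0 < s / 3 := by positivity
      have hσ3 : 0 < σ / 3 := by positivity
      have hσs3 : σ / 3 ≤ s / 3 := by linarith
      have hκ : σ / 3 / (s / 3) = σ / s := by field_simp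
      have sl1 : SlopeOn (σ / 3 / (s / 3)) (((P : ℝ) - 1) / (2 * R)) (P / (2 * R))
          (Icc a (a + s / 3)) := by
        rw [hκ]; exact hsl.mono (Icc_subset_Icc le_rfl (by linarith))
      have sl2 : SlopeOn (σ / 3 / (s / 3)) (((P : ℝ) - 1) / (2 * R)) (P / (2 * R))
          (Icc (a + 2 * (s / 3)) (a + 2 * (s / 3) + s / 3)) := by
        rw [hκ]; exact hsl.mono (Icc_subset_Icc (by linarith) (by linarith))
      have c1 := ih (b := b) hs3 hσ3 hσs3 sl1
      have c2 := ih (b := b + 2 * (σ / 3)) hs3 hσ3 hσs3 sl1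
      have c3 := ih (b := b) hs3 hσ3 hσs3 sl2
      have c4 := ih (b := b + 2 * (σ / 3)) hs3 hσ3 hσs3 sl2
      set τ : ℝ := 3 * (g a - g (a + 2 * (s / 3))) / σ with hτ
      have p1 : pos a b (σ / 3) = 3 * pos a b σ := by unfold pos; field_simp
      have p2 : pos a (b + 2 * (σ / 3)) (σ / 3) = 3 * pos a b σ - 2 := by
        unfold pos; field_simp; ring
      have p3 : pos (a + 2 * (s / 3)) b (σ / 3) = 3 * pos a b σ - τ := by
        rw [hτ]; unfold pos; field_simp; ring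
      have p4 : pos (a + 2 * (s / 3)) (b + 2 * (σ / 3)) (σ / 3) = 3 * pos a b σ - 2 - τ := by
        rw [hτ]; unfold pos; field_simp; ring
      rw [p1] at c1
      rw [p2] at c2
      rw [p3] at c3
      rw [p4] at c4
      obtain ⟨t1, t2⟩ := hsl a ⟨le_rfl, by linarith⟩ (a + 2 * (s / 3))
        ⟨by linarith, by linarith⟩ (by linarith)
      have t1' : ((P : ℝ) - 1) / R ≤ τ := by
        rw [hτ, le_div_iff₀ hσ]
        have : σ / s * (((P : ℝ) - 1) / (2 * R)) * (a + 2 * (s / 3) - a) =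
            (((P : ℝ) - 1) / R * σ) / 3 := by field_simp; ring
        rw [this] at t1
        linarith
      have t2' : τ ≤ (P : ℝ) / R := by
        rw [hτ, div_le_iff₀ hσ]
        have : σ / s * ((P : ℝ) / (2 * R)) * (a + 2 * (s / 3) - a) =
            ((P : ℝ) / R * σ) / 3 := by field_simp; ring
        rw [this] at t2
        linarith
      have hstep := step hok q0 q1 t1' t2'
      have e : s / 3 / 3 ^ n = s / 3 ^ (n + 1) := by rw [pow_succ]; field_simp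
      rw [e] at c1 c2 c3 c4
      refine ((c1.union c2).union (c3.union c4)).mono (D_subset a b s σ) ?_
      have hφn : 0 ≤ Real.goldenRatio ^ n := by positivity
      have := mul_le_mul_of_nonneg_right hstep hφn
      rw [pow_succ]
      nlinarith [this]

/-! ### The dimension of a set with good covers -/

lemma three_rpow_log : (3 : ℝ) ^ (Real.log Real.goldenRatio / Real.log 3) = Real.goldenRatio := by
  have h3 : (0 : ℝ) < 3 := by norm_num
  have hl : Real.log 3 ≠ 0 := Real.log_ne_zero_of_pos_of_ne_one h3 (by norm_num)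
  rw [Real.rpow_def_of_pos h3, mul_div_cancel₀ _ hl, Real.exp_log Real.goldenRatio_pos]

theorem dimH_le_of_cov {S : Set (ℝ × ℝ)} {s N : ℝ} (hs : 0 < s)
    (h : ∀ n : ℕ, Cov S (s / 3 ^ n) (N * Real.goldenRatio ^ n)) :
    dimH S ≤ ENNReal.ofReal (Real.log Real.goldenRatio / Real.log 3) := by
  set d : ℝ := Real.log Real.goldenRatio / Real.log 3 with hd
  have hφ := Real.goldenRatio_pos
  have hd0 : 0 ≤ d := div_nonneg (Real.log_nonneg Real.one_lt_goldenRatio.le)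
    (Real.log_nonneg (by norm_num))
  choose l h1 h2 h3 using h
  have hr : Filter.Tendsto (fun n : ℕ => ENNReal.ofReal (s / 3 ^ n)) Filter.atTop (𝓝 0) := by
    have ht : Filter.Tendsto (fun n : ℕ => s / 3 ^ n) Filter.atTop (𝓝 0) := by
      have := (tendsto_pow_atTop_nhds_zero_of_lt_one (by norm_num : (0 : ℝ) ≤ 1 / 3)
        (by norm_num)).const_mul s
      simp only [mul_zero] at this
      refine this.congr fun n => ?_
      rw [one_div, inv_pow]; rfl
    have := ENNReal.tendsto_ofReal ht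
    rwa [ENNReal.ofReal_zero] at this
  have key : μH[d] S ≤ ENNReal.ofReal (N * s ^ d) := by
    refine (Measure.hausdorffMeasure_le_liminf_sum d S _ hr
      (fun n (i : Fin (l n).length) => (l n).get i)
      (Filter.Eventually.of_forall fun n i => h2 n _ (List.get_mem _ _))
      (Filter.Eventually.of_forall fun n p hp => ?_)).trans ?_
    · obtain ⟨U, hU, hpU⟩ := mem_iUnion₂.mp (h3 n hp)
      obtain ⟨i, hi⟩ := List.get_of_mem hU
      exact mem_iUnion.mpr ⟨i, by rw [hi]; exact hpU⟩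
    · refine Filter.liminf_le_of_frequently_le' (Filter.Frequently.of_forall fun n => ?_)
      have hsn : 0 < s / 3 ^ n := by positivity
      calc ∑ i : Fin (l n).length, Metric.ediam ((l n).get i) ^ d
          ≤ ∑ _i : Fin (l n).length, ENNReal.ofReal (s / 3 ^ n) ^ d :=
            Finset.sum_le_sum fun i _ =>
              ENNReal.rpow_le_rpow (h2 n _ (List.get_mem _ _)) hd0
        _ = ENNReal.ofReal ((l n).length * (s / 3 ^ n) ^ d) := by
            rw [Finset.sum_const, Finset.card_univ, Fintype.card_fin, nsmul_eq_mul,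
              ENNReal.ofReal_rpow_of_pos hsn, ENNReal.ofReal_mul (by positivity),
              ENNReal.ofReal_natCast]
        _ ≤ ENNReal.ofReal (N * s ^ d) := by
            refine ENNReal.ofReal_le_ofReal ?_
            have e : (s / 3 ^ n) ^ d = s ^ d / Real.goldenRatio ^ n := by
              rw [Real.div_rpow hs.le (by positivity), ← Real.rpow_natCast_mul (by norm_num),
                mul_comm (n : ℝ) d, Real.rpow_mul_natCast (by norm_num), hd, three_rpow_log]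
            rw [e]
            have h5 : 0 ≤ s ^ d / Real.goldenRatio ^ n := by positivity
            calc ((l n).length : ℝ) * (s ^ d / Real.goldenRatio ^ n)
                ≤ (N * Real.goldenRatio ^ n) * (s ^ d / Real.goldenRatio ^ n) :=
                  mul_le_mul_of_nonneg_right (h1 n) h5
              _ = N * s ^ d := by field_simp
  have hne : μH[((⟨d, hd0⟩ : NNReal) : ℝ)] S ≠ ⊤ :=
    ne_top_of_le_ne_top ENNReal.ofReal_ne_top key
  have := dimH_le_of_hausdorffMeasure_ne_top hne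
  refine this.trans_eq ?_
  rw [ENNReal.ofReal, Real.toNNReal_of_nonneg hd0]
  rfl

theorem dimH_D_le {R P : ℕ} {A B : List ℕ} (hok : OK R P A B) {a b s σ : ℝ} (hs : 0 < s)
    (hσ : 0 < σ) (hσs : σ ≤ s)
    (hsl : SlopeOn (σ / s) (((P : ℝ) - 1) / (2 * R)) (P / (2 * R)) (Icc a (a + s))) :
    dimH (D a b s σ) ≤ ENNReal.ofReal (Real.log Real.goldenRatio / Real.log 3) :=
  dimH_le_of_cov hs fun n => cover hok n hs hσ hσs hsl

/-! ### The slopes at the points of the intersection -/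

/-- Slopes at the points of `circle ∩ (C × C)`, up to powers of `3`. -/
lemma slope_range {x y : ℝ} (hc : x ^ 2 + y ^ 2 = 1) (hx : x ∈ cantorSet) (hy : y ∈ cantorSet)
    (hx0 : 0 < x) (hxy : x ≤ y) (hz : 1 - y ∈ cantorSet) :
    ∃ m : ℕ, (2 / 3 ≤ 3 ^ m * x / y ∧ 3 ^ m * x / y < 13 / 16) ∨
      (8 / 9 < 3 ^ m * x / y ∧ 3 ^ m * x / y < 11 / 12) := by
  have hy0 : 0 < y := lt_of_lt_of_le hx0 hxy
  have hy1 := cantor_le_one hy
  obtain ⟨n, h1, h2⟩ := exists_level hx hx0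
  refine ⟨n, ?_⟩
  rcases Nat.eq_zero_or_pos n with h0 | hpos
  · subst h0
    rw [pow_zero, one_mul] at h1
    right
    rw [pow_zero, one_mul, lt_div_iff₀ hy0, div_lt_iff₀ hy0]
    have hy2 : 1 - y < 8 / 27 := by nlinarith
    have hy3 := gap'' hz hy2
    constructor <;> nlinarith
  · left
    obtain ⟨k, rfl⟩ : ∃ k, n = k + 1 := ⟨n - 1, by omega⟩
    set X : ℝ := 3 ^ (k + 1) * x with hX
    have hp3 : (3 : ℝ) ≤ 3 ^ (k + 1) := by
      rw [pow_succ]
      have := one_le_pow₀ (n := k) (by norm_num : (1 : ℝ) ≤ 3)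
      linarith
    have hx3 : 3 * x ≤ X := by
      rw [hX]; exact mul_le_mul_of_nonneg_right hp3 hx0.le
    have hXC : X ∈ cantorSet := pow_mul_mem hx _ h2
    -- `9 ^ n (1 - y) = X² / (1 + y)`
    have hZ : (3 : ℝ) ^ (2 * (k + 1)) * (1 - y) * (1 + y) = X ^ 2 := by
      rw [hX, pow_mul', mul_pow]
      have : (1 - y) * (1 + y) = x ^ 2 := by linarith
      rw [mul_assoc, this]
    have hy8 : 8 / 9 ≤ y ^ 2 := by nlinarith
    have hy9 : 9 / 10 ≤ y := by nlinarith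
    have hZ0 : 0 ≤ (3 : ℝ) ^ (2 * (k + 1)) * (1 - y) := by
      have : 0 ≤ 1 - y := by linarith
      positivity
    have hZ1 : (3 : ℝ) ^ (2 * (k + 1)) * (1 - y) < 2 / 3 := by
      by_contra hcon
      push Not at hcon
      nlinarith
    have hZ2 := gap (pow_mul_mem hz _ (by linarith)) hZ1
    have hX2 : X ^ 2 ≤ 2 / 3 := by
      rw [← hZ]
      nlinarith
    have hX3 : X < 8 / 9 := by nlinarith
    have hX4 := gap' hXC hX3
    have hxx : x ≤ 7 / 27 := by linarith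
    rw [le_div_iff₀ hy0, div_lt_iff₀ hy0]
    constructor
    · nlinarith
    · have hy10 : 1 - (7 / 27) ^ 2 ≤ y ^ 2 := by nlinarith
      nlinarith

/-- Near a point of the circle the slopes are close to `x / y`. -/
lemma exists_slopeOn {x y κ lo hi : ℝ} (hc : x ^ 2 + y ^ 2 = 1) (hy0 : 0 < y) (hκ : 0 < κ)
    (h1 : lo < x / y / κ) (h2 : x / y / κ < hi) :
    ∃ δ > 0, SlopeOn κ lo hi (Icc (x - δ) (x + δ)) := by
  have hg : g x = y := (eq_g hc hy0.le).symm
  have hcont : ContinuousAt (fun p : ℝ × ℝ => (p.1 + p.2) / (g p.1 + g p.2)) (x, x) := by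
    have hgc : Continuous g := by unfold g; fun_prop
    refine ContinuousAt.div (by fun_prop) (by fun_prop) ?_
    simp only [hg]; positivity
  have hval : (x + x) / (g x + g x) = x / y := by rw [hg]; field_simp
  have e1 : ∀ᶠ p : ℝ × ℝ in 𝓝 (x, x), κ * lo < (p.1 + p.2) / (g p.1 + g p.2) := by
    refine hcont.eventually (lt_mem_nhds ?_)
    simp only [hval]
    rw [lt_div_iff₀ hκ] at h1
    linarith
  have e2 : ∀ᶠ p : ℝ × ℝ in 𝓝 (x, x), (p.1 + p.2) / (g p.1 + g p.2) < κ * hi := by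
    refine hcont.eventually (gt_mem_nhds ?_)
    simp only [hval]
    rw [div_lt_iff₀ hκ] at h2
    linarith
  have e3 : ∀ᶠ p : ℝ × ℝ in 𝓝 (x, x), 0 < 1 - p.1 ^ 2 ∧ 0 < 1 - p.2 ^ 2 := by
    have hx2 : 0 < 1 - x ^ 2 := by nlinarith
    have c1 : ContinuousAt (fun p : ℝ × ℝ => 1 - p.1 ^ 2) (x, x) := by fun_prop
    have c2 : ContinuousAt (fun p : ℝ × ℝ => 1 - p.2 ^ 2) (x, x) := by fun_prop
    exact (c1.eventually (lt_mem_nhds hx2)).and (c2.eventually (lt_mem_nhds hx2))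
  obtain ⟨δ, hδ, hball⟩ := Metric.eventually_nhds_iff.mp (e1.and (e2.and e3))
  refine ⟨δ / 2, by positivity, fun x1 hx1 x2 hx2 h12 => ?_⟩
  have hd : dist (x1, x2) (x, x) < δ := by
    rw [Prod.dist_eq]
    refine max_lt ?_ ?_
    · rw [Real.dist_eq]
      exact lt_of_le_of_lt (abs_le.mpr ⟨by linarith [hx1.1], by linarith [hx1.2]⟩)
        (by linarith : δ / 2 < δ)
    · rw [Real.dist_eq]
      exact lt_of_le_of_lt (abs_le.mpr ⟨by linarith [hx2.1], by linarith [hx2.2]⟩)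
        (by linarith : δ / 2 < δ)
  obtain ⟨f1, f2, f3, f4⟩ := hball hd
  simp only at f1 f2 f3 f4
  have g1 : 0 < g x1 := Real.sqrt_pos.mpr f3
  have g2 : 0 < g x2 := Real.sqrt_pos.mpr f4
  have s1 : g x1 ^ 2 = 1 - x1 ^ 2 := Real.sq_sqrt f3.le
  have s2 : g x2 ^ 2 = 1 - x2 ^ 2 := Real.sq_sqrt f4.le
  have hdiff : g x1 - g x2 = (x1 + x2) / (g x1 + g x2) * (x2 - x1) := by
    rw [div_mul_eq_mul_div, eq_div_iff (by positivity)]
    nlinarith
  rw [hdiff]
  have h0 : 0 ≤ x2 - x1 := by linarith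
  exact ⟨mul_le_mul_of_nonneg_right f1.le h0, mul_le_mul_of_nonneg_right f2.le h0⟩

/-! ### The theorem -/

lemma one_sub_mem_preCantorSet (n : ℕ) :
    ∀ {x : ℝ}, x ∈ preCantorSet n → 1 - x ∈ preCantorSet n := by
  induction n with
  | zero =>
    intro x hx
    simp only [preCantorSet_zero, mem_Icc] at hx ⊢
    constructor <;> linarith [hx.1, hx.2]
  | succ n ih =>
    intro x hx
    rw [preCantorSet_succ] at hx ⊢
    rcases hx with ⟨y, hy, rfl⟩ | ⟨y, hy, rfl⟩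
    · exact Or.inr ⟨1 - y, ih hy, by ring⟩
    · exact Or.inl ⟨1 - y, ih hy, by ring⟩

lemma one_sub_mem {x : ℝ} (hx : x ∈ cantorSet) : 1 - x ∈ cantorSet := by
  simp only [cantorSet, mem_iInter] at hx ⊢
  exact fun n => one_sub_mem_preCantorSet n (hx n)

/-- The points of `circle ∩ (C × C)`. -/
def E : Set (ℝ × ℝ) := {p | p.1 ^ 2 + p.2 ^ 2 = 1 ∧ p.1 ∈ cantorSet ∧ p.2 ∈ cantorSet}

/-- The points in rectangles with all slopes in the window of `(R, P)`. -/
def T (R P : ℕ) : Set (ℝ × ℝ) :=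
  ⋃ k : ℕ, ⋃ N : ℕ, ⋃ M : ℕ, ⋃ m : ℕ,
    {p | p ∈ D ((N : ℝ) / 3 ^ k) ((M : ℝ) / 3 ^ (k + m)) (1 / 3 ^ k) (1 / 3 ^ (k + m)) ∧
      SlopeOn (1 / 3 ^ (k + m) / (1 / 3 ^ k)) (((P : ℝ) - 1) / (2 * R)) (P / (2 * R))
        (Icc ((N : ℝ) / 3 ^ k) ((N : ℝ) / 3 ^ k + 1 / 3 ^ k))}

lemma dimH_T_le {R P : ℕ} {A B : List ℕ} (hok : OK R P A B) :
    dimH (T R P) ≤ ENNReal.ofReal (Real.log Real.goldenRatio / Real.log 3) := by
  unfold T
  simp only [dimH_iUnion]
  refine iSup_le fun k => iSup_le fun N => iSup_le fun M => iSup_le fun m => ?_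
  by_cases hsl : SlopeOn (1 / 3 ^ (k + m) / (1 / 3 ^ k)) (((P : ℝ) - 1) / (2 * R)) (P / (2 * R))
        (Icc ((N : ℝ) / 3 ^ k) ((N : ℝ) / 3 ^ k + 1 / 3 ^ k))
  · refine (dimH_mono fun p hp => hp.1).trans
      (dimH_D_le hok (by positivity) (by positivity) ?_ hsl)
    refine one_div_le_one_div_of_le (by positivity) ?_
    exact pow_le_pow_right₀ (by norm_num) (by omega)
  · have : {p | p ∈ D ((N : ℝ) / 3 ^ k) ((M : ℝ) / 3 ^ (k + m)) (1 / 3 ^ k) (1 / 3 ^ (k + m)) ∧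
      SlopeOn (1 / 3 ^ (k + m) / (1 / 3 ^ k)) (((P : ℝ) - 1) / (2 * R)) (P / (2 * R))
        (Icc ((N : ℝ) / 3 ^ k) ((N : ℝ) / 3 ^ k + 1 / 3 ^ k))} = ∅ := by
      ext p
      simp only [mem_ofPred_eq, mem_empty_iff_false, iff_false]
      exact fun hp => hsl hp.2
    rw [this, dimH_empty]
    exact zero_le

lemma mem_T {x y : ℝ} {R P m : ℕ} (hc : x ^ 2 + y ^ 2 = 1) (hx : x ∈ cantorSet)
    (hy : y ∈ cantorSet) (hy0 : 0 < y) (h1 : ((P : ℝ) - 1) / (2 * R) < 3 ^ m * x / y)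
    (h2 : 3 ^ m * x / y < P / (2 * R)) : (x, y) ∈ T R P := by
  have e : x / y / (1 / 3 ^ m) = 3 ^ m * x / y := by field_simp
  obtain ⟨δ, hδ, hsl⟩ := exists_slopeOn (κ := 1 / 3 ^ m) hc hy0 (by positivity)
    (by rw [e]; exact h1) (by rw [e]; exact h2)
  obtain ⟨k, hk⟩ := exists_pow_lt_of_lt_one hδ (by norm_num : (1 : ℝ) / 3 < 1)
  have hk' : (1 : ℝ) / 3 ^ k < δ := by
    rw [one_div_pow] at hk
    exact hk
  obtain ⟨N, u, hu, eN⟩ := exists_cell hx k
  obtain ⟨M, v, hv, eM⟩ := exists_cell hy (k + m)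
  unfold T
  refine mem_iUnion.mpr ⟨k, mem_iUnion.mpr ⟨N, mem_iUnion.mpr ⟨M, mem_iUnion.mpr ⟨m, ?_⟩⟩⟩⟩
  refine ⟨⟨hc, hy0, u, hu, v, hv, eN, eM⟩, ?_⟩
  have hκ : (1 : ℝ) / 3 ^ (k + m) / (1 / 3 ^ k) = 1 / 3 ^ m := by
    rw [pow_add]; field_simp
  rw [hκ]
  refine hsl.mono ?_
  have hu0 := cantor_nonneg hu
  have hu1 := cantor_le_one hu
  have hp : (0 : ℝ) < 1 / 3 ^ k := by positivity
  have h3 : 0 ≤ 1 / 3 ^ k * u := by positivity
  have h4 : 1 / 3 ^ k * u ≤ 1 / 3 ^ k := by nlinarith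
  exact Icc_subset_Icc (by linarith) (by linarith)

/-- The point of the first quadrant of the circle with `x / y = c`. -/
noncomputable def P0 (c : ℝ) : ℝ × ℝ := (c / √(1 + c ^ 2), 1 / √(1 + c ^ 2))

lemma eq_P0 {x y c : ℝ} (hc : x ^ 2 + y ^ 2 = 1) (hy0 : 0 < y) (h : x / y = c) :
    (x, y) = P0 c := by
  have hx : x = c * y := by rw [← h]; field_simp
  have h1 : (1 + c ^ 2) * y ^ 2 = 1 := by rw [hx] at hc; linarith
  have h2 : (1 / y) ^ 2 = 1 + c ^ 2 := by
    rw [div_pow, one_pow, div_eq_iff (by positivity)]; linarith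
  have h3 : √(1 + c ^ 2) = 1 / y := by
    rw [← h2]; exact Real.sqrt_sq (by positivity)
  unfold P0
  rw [h3, hx]
  ext
  · simp
  · simp

/-- The exceptional points, where a slope is at the boundary of two windows. -/
def Exc : Set (ℝ × ℝ) :=
  range (fun m : ℕ => P0 ((2 / 3) / 3 ^ m)) ∪ range (fun m : ℕ => P0 ((13 / 18) / 3 ^ m))

lemma half_subset {x y : ℝ} (hc : x ^ 2 + y ^ 2 = 1) (hx : x ∈ cantorSet) (hy : y ∈ cantorSet)
    (hx0 : 0 < x) (hxy : x ≤ y) :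
    (x, y) ∈ Exc ∪ (T 9 13 ∪ T 9 14 ∪ (T 8 13 ∪ T 18 33)) := by
  have hy0 : 0 < y := lt_of_lt_of_le hx0 hxy
  obtain ⟨m, ⟨h1, h2⟩ | ⟨h1, h2⟩⟩ := slope_range hc hx hy hx0 hxy (one_sub_mem hy)
  · have ex : ∀ r : ℝ, 3 ^ m * x / y = r → x / y = r / 3 ^ m := by
      intro r hr
      rw [← hr]; field_simp
    rcases h1.eq_or_lt with h | h
    · exact Or.inl (Or.inl ⟨m, (eq_P0 hc hy0 (ex _ h.symm)).symm⟩)
    rcases lt_trichotomy (3 ^ m * x / y) (13 / 18) with h3 | h3 | h3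
    · refine Or.inr (Or.inl (Or.inl (mem_T (m := m) hc hx hy hy0 ?_ ?_)))
      · norm_num; linarith
      · norm_num; linarith
    · exact Or.inl (Or.inr ⟨m, (eq_P0 hc hy0 (ex _ h3)).symm⟩)
    · rcases lt_or_ge (3 ^ m * x / y) (7 / 9) with h4 | h4
      · refine Or.inr (Or.inl (Or.inr (mem_T (m := m) hc hx hy hy0 ?_ ?_)))
        · norm_num; linarith
        · norm_num; linarith
      · refine Or.inr (Or.inr (Or.inl (mem_T (m := m) hc hx hy hy0 ?_ ?_)))
        · norm_num; linarith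
        · norm_num; linarith
  · refine Or.inr (Or.inr (Or.inr (mem_T (m := m) hc hx hy hy0 ?_ ?_)))
    · norm_num; linarith
    · norm_num; linarith

/-- The Hausdorff dimension of `circle ∩ (C × C)` is at most `log φ / log 3 = 0.438…`. -/
theorem dimH_E_le : dimH E ≤ ENNReal.ofReal (Real.log Real.goldenRatio / Real.log 3) := by
  set S : Set (ℝ × ℝ) := Exc ∪ (T 9 13 ∪ T 9 14 ∪ (T 8 13 ∪ T 18 33)) with hS
  have hSd : dimH S ≤ ENNReal.ofReal (Real.log Real.goldenRatio / Real.log 3) := by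
    rw [hS]
    simp only [dimH_union]
    refine max_le ?_ (max_le (max_le ?_ ?_) (max_le ?_ ?_))
    · have : Exc.Countable := (countable_range _).union (countable_range _)
      rw [dimH_countable this]
      exact zero_le
    · exact dimH_T_le ok1
    · exact dimH_T_le ok2
    · exact dimH_T_le ok3
    · exact dimH_T_le ok4
  have hsub : E ⊆ {(0, 1), (1, 0)} ∪ (S ∪ Prod.swap '' S) := by
    rintro ⟨x, y⟩ ⟨hc, hx, hy⟩
    simp only at hc hx hy
    have hx0 := cantor_nonneg hx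
    have hy0 := cantor_nonneg hy
    rcases hx0.eq_or_lt with h | h
    · left; left
      have : y = 1 := by rw [← h] at hc; nlinarith
      rw [← h, this]
    rcases hy0.eq_or_lt with h' | h'
    · left; right
      have : x = 1 := by rw [← h'] at hc; nlinarith
      rw [← h', this]; rfl
    rcases le_total x y with hxy | hxy
    · exact Or.inr (Or.inl (half_subset hc hx hy h hxy))
    · exact Or.inr (Or.inr ⟨(y, x), half_subset (by linarith) hy hx h' hxy, rfl⟩)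
  refine (dimH_mono hsub).trans ?_
  rw [dimH_union, dimH_union]
  refine max_le ?_ (max_le hSd ?_)
  · rw [dimH_countable (by simp)]
    exact zero_le
  · refine (LipschitzWith.dimH_image_le (K := 1) ?_ S).trans hSd
    intro p q
    rw [ENNReal.coe_one, one_mul, Prod.edist_eq, Prod.edist_eq, max_comm]
    rfl

/-- The Hausdorff dimension of `circle ∩ (C × C)` is at most `11 / 25`. -/
theorem circle_upper : dimH E ≤ 11 / 25 := by
  refine dimH_E_le.trans ?_
  have e : (11 / 25 : ENNReal) = ENNReal.ofReal (11 / 25) := by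
    rw [ENNReal.ofReal_div_of_pos (by norm_num)]; norm_num
  rw [e]
  refine ENNReal.ofReal_le_ofReal ?_
  rw [div_le_iff₀ (Real.log_pos (by norm_num))]
  have h1 : Real.goldenRatio ^ 25 ≤ 3 ^ 11 := by
    have h2 : Real.goldenRatio ≤ 1.6181 := by
      unfold Real.goldenRatio
      have : √5 ≤ 2.2362 := by
        rw [Real.sqrt_le_left (by norm_num)]; norm_num
      linarith
    calc Real.goldenRatio ^ 25 ≤ 1.6181 ^ 25 :=
          pow_le_pow_left₀ Real.goldenRatio_pos.le h2 25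
      _ ≤ 3 ^ 11 := by norm_num
  have h3 := Real.log_le_log (by have := Real.goldenRatio_pos; positivity) h1
  rw [Real.log_pow, Real.log_pow] at h3
  push_cast at h3
  linarith

end Pool.Agent.Lib.H60U
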